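import Mathlib

set_option autoImplicit false

/-!
# Normal 2-complements in groups whose 2-subgroups are small with one involution
-/

namespace Pool.Agent.W825.NC

open Subgroup

/-- a 2-group of order dividing 4 with at most one involution is cyclic -/
theorem cyc_four {P : Type} [Group P] [Finite P] (h4 : Nat.card P ∣ 4)
    (h : ∀ s t : P, orderOf s = 2 → orderOf t = 2 → s = t) : IsCyclic P := by
  have h1 : Nat.card P = 1 ∨ Nat.card P = 2 ∨ Nat.card P = 4 := by
    have h2 : Nat.card P ≤ 4 := Nat.le_of_dvd (by norm_num) h4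
    have h3 : 0 < Nat.card P := Nat.card_pos
    interval_cases (Nat.card P)
    · exact Or.inl rfl
    · exact Or.inr (Or.inl rfl)
    · exact absurd h4 (by norm_num)
    · exact Or.inr (Or.inr rfl)
  rcases h1 with h1 | h1 | h1
  · have : Subsingleton P := (Nat.card_eq_one_iff_unique.1 h1).1
    exact isCyclic_of_subsingleton
  · have : Fact (Nat.Prime 2) := ⟨Nat.prime_two⟩
    exact isCyclic_of_prime_card h1
  · by_contra hc
    have key : ∀ g : P, g ≠ 1 → orderOf g = 2 := by
      intro g hg
      have h5 : orderOf g ∣ 4 := h1 ▸ orderOf_dvd_natCard g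
      have h6 : orderOf g ≠ 4 := fun h7 => hc (isCyclic_of_orderOf_eq_card g (h7.trans h1.symm))
      have h8 : orderOf g ≠ 1 := fun h9 => hg (orderOf_eq_one_iff.1 h9)
      have h9 : orderOf g ≤ 4 := Nat.le_of_dvd (by norm_num) h5
      have h10 : 0 < orderOf g := orderOf_pos g
      interval_cases hg : (orderOf g)
      · exact absurd rfl h8
      · rfl
      · exact absurd h5 (by norm_num)
      · exact absurd rfl h6
    have : Fintype P := Fintype.ofFinite P
    classical
    rw [Nat.card_eq_fintype_card] at h1
    obtain ⟨s, hs⟩ : ∃ s : P, s ≠ 1 := by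
      by_contra hs
      push Not at hs
      have : Fintype.card P ≤ 1 := Fintype.card_le_one_iff.2 fun a b => by rw [hs a, hs b]
      omega
    have h5 : ∃ t : P, t ∉ ({1, s} : Finset P) := by
      by_contra ht
      push Not at ht
      have h6 : (Finset.univ : Finset P) ⊆ {1, s} := fun t _ => ht t
      have h7 := Finset.card_le_card h6
      have h8 : ({1, s} : Finset P).card ≤ 2 := Finset.card_le_two
      rw [Finset.card_univ] at h7
      omega
    obtain ⟨t, ht⟩ := h5
    rw [Finset.mem_insert, Finset.mem_singleton, not_or] at ht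
    exact ht.2 (h t s (key t ht.1) (key s hs))

/-- `G` has a normal subgroup of odd order with cyclic quotient of order dividing 4 -/
def OddByCyclic (G : Type) [Group G] : Prop :=
  ∃ (N : Subgroup G) (_ : N.Normal), Odd (Nat.card N) ∧ IsCyclic (G ⧸ N) ∧ Nat.card (G ⧸ N) ∣ 4

theorem odd_by_cyclic {G : Type} [Group G] [Finite G] {m : ℕ} (hm : m % 8 = 4)
    (h1 : ∀ S : Subgroup G, IsPGroup 2 S → Nat.card S ∣ m)
    (h2 : ∀ S : Subgroup G, IsPGroup 2 S → ∀ s t : S, orderOf s = 2 → orderOf t = 2 → s = t) :
    OddByCyclic G := by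
  have hf : Fact (Nat.Prime 2) := ⟨Nat.prime_two⟩
  by_cases hG : 2 ∣ Nat.card G
  · let P : Sylow 2 G := default
    have hP4 : Nat.card P ∣ 4 := by
      obtain ⟨k, hk⟩ := P.2.exists_card_eq
      have h3 : 2 ^ k ∣ m := hk ▸ h1 P.1 P.2
      have h4 : k ≤ 2 := by
        by_contra h5
        have h6 : (2 : ℕ) ^ 3 ∣ 2 ^ k := pow_dvd_pow 2 (by omega)
        have h7 := h6.trans h3
        omega
      change Nat.card P.1 ∣ 4
      rw [hk]
      exact pow_dvd_pow 2 h4
    have hcyc : IsCyclic P := cyc_four hP4 (h2 P.1 P.2)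
    have hmin : (Nat.card G).minFac = 2 := by
      rw [Nat.minFac_eq_two_iff]
      exact hG
    have hle := hcyc.normalizer_le_centralizer hmin
    have hco := MonoidHom.ker_transferSylow_isComplement' P hle
    refine ⟨(MonoidHom.transferSylow P hle).ker, inferInstance, ?_, ?_, ?_⟩
    · rw [← Nat.not_even_iff_odd, even_iff_two_dvd]
      exact MonoidHom.not_dvd_card_ker_transferSylow P hle
    · have hinj := QuotientGroup.kerLift_injective (MonoidHom.transferSylow P hle)
      exact isCyclic_of_injective _ hinj
    · have h3 : (MonoidHom.transferSylow P hle).ker.index = Nat.card P := hco.symm.index_eq_card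
      change (MonoidHom.transferSylow P hle).ker.index ∣ 4
      rw [h3]
      exact hP4
  · refine ⟨⊤, inferInstance, ?_, ?_, ?_⟩
    · rw [← Nat.not_even_iff_odd, even_iff_two_dvd, Subgroup.card_top]
      exact hG
    · have : Subsingleton (G ⧸ (⊤ : Subgroup G)) := QuotientGroup.subsingleton_quotient_top
      exact isCyclic_of_subsingleton
    · have : Subsingleton (G ⧸ (⊤ : Subgroup G)) := QuotientGroup.subsingleton_quotient_top
      rw [Nat.card_of_subsingleton (1 : G ⧸ (⊤ : Subgroup G))]
      norm_num

end Pool.Agent.W825.NC
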