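import Mathlib
import Pool.Agent.W825.ST.Test
import Pool.Agent.W825.NC.Grp

set_option autoImplicit false

/-!
# Automorphism groups of Steiner systems S(k²+k+1, k+1, 2)
-/

namespace Pool.Agent.W825.NC

open Configuration Configuration.ProjectivePlane Finset

variable {k : ℕ} {B : Finset (Finset (Fin (k ^ 2 + k + 1)))}

theorem steiner_grp (hcard : ∀ b ∈ B, b.card = k + 1)
    (hone : ∀ x y : Fin (k ^ 2 + k + 1), x ≠ y → ∃! b, b ∈ B ∧ x ∈ b ∧ y ∈ b)
    (G : Subgroup (Equiv.Perm (Fin (k ^ 2 + k + 1))))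
    (hG : ∀ g ∈ G, ∀ b ∈ B, b.map g.toEmbedding ∈ B) :
    (k % 8 = 3 → (¬ ∃ x y : ℤ, (k : ℤ) = x ^ 2 + 2 * y ^ 2) →
      ∃ (N : Subgroup G) (_ : N.Normal), Odd (Nat.card N) ∧ IsCyclic (G ⧸ N) ∧
        Nat.card (G ⧸ N) ∣ 4) ∧
    (k % 8 = 7 → (¬ ∃ x y : ℤ, (k : ℤ) = x ^ 2 - 2 * y ^ 2) →
      ∀ S : Subgroup G, IsPGroup 2 S → Nat.card S ∣ k + 1 ∧
        ∀ s t : S, orderOf s = 2 → orderOf t = 2 → s = t) := by
  have key : ∀ S : Subgroup G, IsPGroup 2 S → k % 4 = 3 →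
      (¬ Nat.card S ∣ k + 1 ∨ ∃ s t : S, s ≠ t ∧ orderOf s = 2 ∧ orderOf t = 2) →
      (k % 8 = 3 → ∃ x y : ℤ, (k : ℤ) = x ^ 2 + 2 * y ^ 2) ∧
        (k % 8 = 7 → ∃ x y : ℤ, (k : ℤ) = x ^ 2 - 2 * y ^ 2) := by
    intro S hS h4 hb
    have hcardm : Nat.card (S.map G.subtype) = Nat.card S :=
      Subgroup.card_map_of_injective G.subtype_injective
    refine ST.steiner_test hcard hone (S.map G.subtype) ?_ (hS.map G.subtype) h4 ?_
    · rintro g ⟨s, -, rfl⟩ b hb
      exact hG s.1 s.2 b hb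
    · rcases hb with hb | ⟨s, t, hst, hs, ht⟩
      · left
        rw [hcardm]
        exact hb
      · right
        have ord : ∀ s : S, orderOf (⟨(s : G), ⟨(s : G), s.2, rfl⟩⟩ : S.map G.subtype) =
            orderOf s := by
          intro s
          rw [← Subgroup.orderOf_coe, ← Subgroup.orderOf_coe s, ← Subgroup.orderOf_coe (s : G)]
        refine ⟨⟨(s : G), ⟨(s : G), s.2, rfl⟩⟩, ⟨(t : G), ⟨(t : G), t.2, rfl⟩⟩, ?_, ?_, ?_⟩
        · intro h
          apply hst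
          have h1 := congrArg Subtype.val h
          exact Subtype.ext (Subtype.ext h1)
        · rw [ord]; exact hs
        · rw [ord]; exact ht
  constructor
  · intro h8 hno
    refine odd_by_cyclic (m := k + 1) (by omega) (fun S hS => ?_) (fun S hS s t hs ht => ?_)
    · by_contra h1
      exact hno ((key S hS (by omega) (Or.inl h1)).1 h8)
    · by_contra h1
      exact hno ((key S hS (by omega) (Or.inr ⟨s, t, h1, hs, ht⟩)).1 h8)
  · intro h8 hno S hS
    constructor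
    · by_contra h1
      exact hno ((key S hS (by omega) (Or.inl h1)).2 h8)
    · intro s t hs ht
      by_contra h1
      exact hno ((key S hS (by omega) (Or.inr ⟨s, t, h1, hs, ht⟩)).2 h8)

end Pool.Agent.W825.NC
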